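import Pool.Agent.Helper24.HW.Stmts

/-! The sum of the numbers of vertices over all labels. -/

set_option autoImplicit false

namespace Pool.Agent.Helper3.HW

open Equiv Equiv.Perm Pool.Agent.Helper24.HW Pool.Agent.Helper24.HWPub Pool.Agent.Helper98.Gn

theorem lab_const {C : Type} (M : LM C) {a b : M.D} (h : SameCycle M.σ a b) : M.ℓ a = M.ℓ b :=
  sc_induct (π := M.σ) (fun a b => M.ℓ a = M.ℓ b) (fun _ => rfl)
    (fun _ _ _ h1 h2 => h1.trans h2) (fun z => (M.hℓ z).symm) h

theorem PTS : ST_PTS := by
  classical
  intro C _ M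
  let L : Quotient (SameCycle.setoid M.σ) → C :=
    Quotient.lift M.ℓ (fun a b h => lab_const M h)
  have h1 : ∀ A, M.pt A =
      ((Finset.univ : Finset (Quotient (SameCycle.setoid M.σ))).filter (fun O => L O = A)).card := by
    intro A
    rw [LM.pt, ← Set.ncard_coe_finset]
    congr 1
    ext O
    constructor
    · rintro ⟨x, hx, rfl⟩
      simpa [L] using hx
    · intro h
      induction O using Quotient.inductionOn with
      | h x =>
        refine ⟨x, ?_, rfl⟩
        simpa [L] using h
  simp_rw [h1]
  rw [← Finset.card_eq_sum_card_fiberwise (f := L) (s := Finset.univ) (t := Finset.univ)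
    (fun _ _ => Finset.mem_coe.2 (Finset.mem_univ _))]
  rw [cyc, Nat.card_eq_fintype_card, Finset.card_univ]

end Pool.Agent.Helper3.HW
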