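import Pool.Agent.Helper26.HW.Stmts
import Pool.Agent.Helper39.HV.NE

/-! # HW: one electron and the nuclei, the terms of the other nuclei kept (for the row V2R0) -/

set_option autoImplicit false

namespace Pool.Agent.Helper3.HW

open MeasureTheory Filter Pool.Agent.Helper95 Pool.Agent.Helper95.PW Pool.Agent.Helper95.LN
  Pool.Agent.Helper95.CF Pool.Agent.Helper95.HV Pool.Agent.Helper53.LN Pool.Agent.Helper26.HW
open Pool.Agent.Helper82.PN (pgb_tri)
open Pool.Agent.Helper39.HV (ne_dot ne_tq em em_le ne_tr ne_gv ne_gq)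

/-- the terms of the nuclei other than the own one -/
noncomputable def UU {M : ℕ} (d : ℝ) (X : Fin M → R3) (Z : Fin M → ℝ) (y : R3) (e a : R3) : ℝ :=
  ∑ i, (if nr (y - X i) ≤ d / 2 then
    (∑ j, if j = i then 0 else Z j * Tq (y - X j) e a) else 0)

theorem tq_zero (ξ e : R3) : Tq ξ e 0 = 0 := by
  simp [Tq]

theorem uu_zero {M : ℕ} (d : ℝ) (X : Fin M → R3) (Z : Fin M → ℝ) (y e : R3) :
    UU d X Z y e 0 = 0 := by
  unfold UU
  simp [tq_zero]

/-- one electron at `y` and the nuclei -/
theorem NE0 (h1 : ST_FLD) (h2 : ST_CUT) : ∀ d : ℝ, 0 < d → d ≤ 1 → ∃ C : ℝ, 0 < C ∧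
    ∀ (z L : ℝ) (n M : ℕ) (X : Fin M → R3) (Z : Fin M → ℝ) (y : R3), Dat d z n X Z → 1 ≤ L →
    (∀ j, 2 * nr (X j) + 4 ≤ L) → (∀ j, nr (y - X j) ≠ 0) →
    ∑ m, ∑ j, Z j * ((∑ i, gq (gm m L) y i * (y i - X j i)) / nr (y - X j) ^ 3 -
      Tq (y - X j) (gv (gm m L) y) (gv (gm m L) y) +
      2 * Tq (y - X j) (gv (gm m L) y) (gv (gN X m (d / 8)) y)) ≤
      C * z + C / L * pot X Z y + 2 * ∑ m, UU d X Z y (em m) (gv (gN X m (d / 8)) y) := by
  intro d hd hd1
  obtain ⟨K1, hK1, HF⟩ := h1
  obtain ⟨K, hK, HC, _⟩ := h2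
  have hK0 : 0 < K := by linarith
  have hK10 : 0 < K1 := by linarith
  refine ⟨2 * (46080 * K1 / d ^ 3) + 414 * K ^ 2, by positivity, ?_⟩
  intro z L n M X Z y hDat hL hXL hy
  have hS := hDat.sep
  have hZ0 : ∀ j, 0 ≤ Z j := hDat.nuc.1
  have hz : 0 ≤ z := zero_le_one.trans hDat.z1
  have hL0 : 0 < L := by linarith
  have hr : ∀ j, 0 < nr (y - X j) := fun j => lt_of_le_of_ne (VIR_nr0 _) (Ne.symm (hy j))
  have hpot : 0 ≤ pot X Z y := by
    unfold pot
    exact Finset.sum_nonneg fun j _ => div_nonneg (hZ0 j) (VIR_nr0 _)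
  have F := fun m => HF M X d (d / 8) (d / 8) m hd hS (by positivity) le_rfl (by linarith)
  by_cases hyL : nr y < L
  · have hgv : ∀ m, gv (gm m L) y = em m := fun m => ne_gv (HC m L hL0).2.1 hyL
    have hgq : ∀ m i, gq (gm m L) y i = 0 := fun m i => ne_gq (HC m L hL0).2.1 hyL i
    have e1 : ∀ j, ∑ m, Z j * ((∑ i, gq (gm m L) y i * (y i - X j i)) / nr (y - X j) ^ 3 -
        Tq (y - X j) (gv (gm m L) y) (gv (gm m L) y) +
        2 * Tq (y - X j) (gv (gm m L) y) (gv (gN X m (d / 8)) y)) =
        Z j * (2 * ∑ m, Tq (y - X j) (em m) (gv (gN X m (d / 8)) y)) := by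
      intro j
      rw [← Finset.mul_sum, Finset.sum_add_distrib, Finset.sum_sub_distrib, ← Finset.mul_sum]
      simp only [hgv, hgq, zero_mul, Finset.sum_const_zero, zero_div]
      rw [ne_tr (hr j), sub_zero, zero_add]
    rw [Finset.sum_comm, Finset.sum_congr rfl fun j _ => e1 j]
    have hpos : 0 ≤ (2 * (46080 * K1 / d ^ 3) + 414 * K ^ 2) / L * pot X Z y := by positivity
    by_cases hnear : ∃ i, nr (y - X i) ≤ d / 4
    · obtain ⟨i, hi⟩ := hnear
      have hUU : ∀ m, UU d X Z y (em m) (gv (gN X m (d / 8)) y) =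
          ∑ j, if j = i then 0 else Z j * Tq (y - X j) (em m) (gv (gN X m (d / 8)) y) := by
        intro m
        unfold UU
        rw [Finset.sum_eq_single i, if_pos (by linarith)]
        · intro i' _ hne
          rw [if_neg]
          push Not
          have t1 := hS i i' (Ne.symm hne)
          have t2 := pgb_tri (X i) (X i') y
          linarith
        · intro h
          exact absurd (Finset.mem_univ i) h
      have own : ∑ m, Tq (y - X i) (em m) (gv (gN X m (d / 8)) y) ≤ 46080 * K1 / d ^ 3 := by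
        have hb : ∀ m, Tq (y - X i) (em m) (gv (gN X m (d / 8)) y) ≤
            30 * (1 * K1) / nr (y - X i) ^ 3 := fun m =>
          (le_abs_self _).trans (ne_tq zero_le_one hK10.le (em_le m) (fun l => (F m).1.d1 l y)
            (hr i))
        have hb3 : ∑ m, Tq (y - X i) (em m) (gv (gN X m (d / 8)) y) ≤
            90 * K1 / nr (y - X i) ^ 3 := by
          refine (Finset.sum_le_sum fun m _ => hb m).trans (le_of_eq ?_)
          simp
          ring
        by_cases h8 : nr (y - X i) < d / 8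
        · have : ∑ m, Tq (y - X i) (em m) (gv (gN X m (d / 8)) y) =
              ∑ m, Tq (y - X i) (em m) (em m) := by
            refine Finset.sum_congr rfl fun m _ => ?_
            have : gv (gN X m (d / 8)) y = em m := by
              funext l
              exact (F m).2.2.1 i y h8 l
            rw [this]
          rw [this, ne_tr (hr i)]
          positivity
        · push Not at h8
          refine hb3.trans ?_
          have h9 : (d / 8) ^ 3 ≤ nr (y - X i) ^ 3 := pow_le_pow_left₀ (by positivity) h8 3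
          have h10 : 90 * K1 / nr (y - X i) ^ 3 ≤ 90 * K1 / (d / 8) ^ 3 :=
            div_le_div_of_nonneg_left (by positivity) (by positivity) h9
          refine h10.trans (le_of_eq ?_)
          field_simp
          ring
      have e2 : ∑ j, Z j * (2 * ∑ m, Tq (y - X j) (em m) (gv (gN X m (d / 8)) y)) =
          2 * (Z i * ∑ m, Tq (y - X i) (em m) (gv (gN X m (d / 8)) y)) +
          2 * ∑ m, UU d X Z y (em m) (gv (gN X m (d / 8)) y) := by
        simp only [hUU]
        rw [Finset.sum_comm (f := fun m j => if j = i then 0 else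
          Z j * Tq (y - X j) (em m) (gv (gN X m (d / 8)) y))]
        have e3 : ∀ j, Z j * (2 * ∑ m, Tq (y - X j) (em m) (gv (gN X m (d / 8)) y)) =
            (if j = i then 2 * (Z i * ∑ m, Tq (y - X i) (em m) (gv (gN X m (d / 8)) y)) else 0) +
            2 * ∑ m, (if j = i then 0 else
              Z j * Tq (y - X j) (em m) (gv (gN X m (d / 8)) y)) := by
          intro j
          by_cases hji : j = i
          · simp only [if_pos hji]
            rw [hji]
            simp
            ring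
          · simp only [if_neg hji]
            rw [← Finset.mul_sum]
            ring
        rw [Finset.sum_congr rfl fun j _ => e3 j, Finset.sum_add_distrib, ← Finset.mul_sum,
          Finset.sum_ite_eq' Finset.univ i, if_pos (Finset.mem_univ i)]
      rw [e2]
      have t1 : Z i * ∑ m, Tq (y - X i) (em m) (gv (gN X m (d / 8)) y) ≤
          z * (46080 * K1 / d ^ 3) := by
        refine (mul_le_mul_of_nonneg_left own (hZ0 i)).trans ?_
        exact mul_le_mul_of_nonneg_right (hDat.le i) (by positivity)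
      have t2 : 0 ≤ 414 * K ^ 2 * z := by positivity
      have t3 : (2 * (46080 * K1 / d ^ 3) + 414 * K ^ 2) * z =
          2 * (z * (46080 * K1 / d ^ 3)) + 414 * K ^ 2 * z := by ring
      linarith
    · push Not at hnear
      have h0 : ∀ m, gv (gN X m (d / 8)) y = 0 := by
        intro m
        funext l
        exact (F m).2.2.2.1 y (fun j => by
          have := hnear j
          linarith) l
      have h00 : ∀ j, Z j * (2 * ∑ m, Tq (y - X j) (em m) (gv (gN X m (d / 8)) y)) = 0 := by
        intro j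
        simp only [h0]
        simp [tq_zero]
      have h01 : ∀ m, UU d X Z y (em m) (gv (gN X m (d / 8)) y) = 0 := by
        intro m
        rw [h0, uu_zero]
      rw [Finset.sum_congr rfl fun j _ => h00 j, Finset.sum_congr rfl fun m _ => h01 m,
        Finset.sum_const_zero, Finset.sum_const_zero]
      positivity
  · push Not at hyL
    have hrL : ∀ j, L / 2 ≤ nr (y - X j) := by
      intro j
      have t1 := pgb_tri y 0 (X j)
      rw [sub_zero, sub_zero, VIR_sym (X j) y] at t1
      have := hXL j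
      have := VIR_nr0 (X j)
      linarith
    have h0 : ∀ m, gv (gN X m (d / 8)) y = 0 := by
      intro m
      funext l
      exact (F m).2.2.2.1 y (fun j => by
        have := hrL j
        linarith) l
    have hg1 : ∀ m i, |gv (gm m L) y i| ≤ K := fun m i => (HC m L hL0).1.d1 i y
    have hg2 : ∀ m i, |gq (gm m L) y i| ≤ 3 * (K / L * K) := by
      intro m i
      unfold gq
      refine (Finset.abs_sum_le_sum_abs _ _).trans ?_
      have h1 : ∀ l ∈ (Finset.univ : Finset (Fin 3)),
          |pd l (pd i (gm m L)) y * pd l (gm m L) y| ≤ K / L * K := by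
        intro l _
        rw [abs_mul]
        exact mul_le_mul ((HC m L hL0).1.d2 l i y) ((HC m L hL0).1.d1 l y) (abs_nonneg _)
          (by positivity)
      refine (Finset.sum_le_sum h1).trans (le_of_eq ?_)
      simp
    have hj : ∀ m j, Z j * ((∑ i, gq (gm m L) y i * (y i - X j i)) / nr (y - X j) ^ 3 -
        Tq (y - X j) (gv (gm m L) y) (gv (gm m L) y) +
        2 * Tq (y - X j) (gv (gm m L) y) (gv (gN X m (d / 8)) y)) ≤
        138 * K ^ 2 / L * (Z j / nr (y - X j)) := by
      intro m j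
      have hrj := hr j
      have hrLj := hrL j
      have t0 : Tq (y - X j) (gv (gm m L) y) (gv (gN X m (d / 8)) y) = 0 := by
        rw [h0]
        simp [Tq]
      have t1 : -Tq (y - X j) (gv (gm m L) y) (gv (gm m L) y) ≤
          30 * (K * K) / nr (y - X j) ^ 3 :=
        (neg_le_abs _).trans (ne_tq hK0.le hK0.le (hg1 m) (hg1 m) hrj)
      have t2 : (∑ i, gq (gm m L) y i * (y i - X j i)) ≤
          3 * (3 * (K / L * K)) * nr (y - X j) :=
        (le_abs_self _).trans (ne_dot (v := gq (gm m L) y) (ξ := y - X j) (by positivity)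
          (hg2 m))
      have t3 : (∑ i, gq (gm m L) y i * (y i - X j i)) / nr (y - X j) ^ 3 ≤
          3 * (3 * (K / L * K)) * nr (y - X j) / nr (y - X j) ^ 3 :=
        div_le_div_of_nonneg_right t2 (by positivity)
      have t4 : 3 * (3 * (K / L * K)) * nr (y - X j) / nr (y - X j) ^ 3 ≤
          18 * K ^ 2 / L * (1 / nr (y - X j)) := by
        have e : 3 * (3 * (K / L * K)) * nr (y - X j) / nr (y - X j) ^ 3 =
            9 * K ^ 2 / L * (1 / nr (y - X j)) * (1 / nr (y - X j)) := by
          field_simp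
          ring
        have e2 : 1 / nr (y - X j) ≤ 2 := by
          rw [div_le_iff₀ hrj]
          linarith
        rw [e]
        have e3 : 9 * K ^ 2 / L * (1 / nr (y - X j)) * (1 / nr (y - X j)) ≤
            9 * K ^ 2 / L * (1 / nr (y - X j)) * 2 :=
          mul_le_mul_of_nonneg_left e2 (by positivity)
        refine e3.trans (le_of_eq ?_)
        ring
      have t5 : 30 * (K * K) / nr (y - X j) ^ 3 ≤ 120 * K ^ 2 / L * (1 / nr (y - X j)) := by
        have e : 30 * (K * K) / nr (y - X j) ^ 3 =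
            30 * K ^ 2 * (1 / nr (y - X j)) * (1 / nr (y - X j) ^ 2) := by
          field_simp
        have e2 : 1 / nr (y - X j) ^ 2 ≤ 4 / L := by
          have e3 : (L / 2) ^ 2 ≤ nr (y - X j) ^ 2 := pow_le_pow_left₀ (by positivity) hrLj 2
          rw [div_le_div_iff₀ (by positivity) hL0]
          nlinarith
        rw [e]
        have e3 : 30 * K ^ 2 * (1 / nr (y - X j)) * (1 / nr (y - X j) ^ 2) ≤
            30 * K ^ 2 * (1 / nr (y - X j)) * (4 / L) :=
          mul_le_mul_of_nonneg_left e2 (by positivity)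
        refine e3.trans (le_of_eq ?_)
        ring
      have t6 : (∑ i, gq (gm m L) y i * (y i - X j i)) / nr (y - X j) ^ 3 -
          Tq (y - X j) (gv (gm m L) y) (gv (gm m L) y) +
          2 * Tq (y - X j) (gv (gm m L) y) (gv (gN X m (d / 8)) y) ≤
          138 * K ^ 2 / L * (1 / nr (y - X j)) := by
        rw [t0, mul_zero, add_zero]
        have e : 138 * K ^ 2 / L * (1 / nr (y - X j)) = 18 * K ^ 2 / L * (1 / nr (y - X j)) +
            120 * K ^ 2 / L * (1 / nr (y - X j)) := by ring
        rw [e]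
        linarith
      refine (mul_le_mul_of_nonneg_left t6 (hZ0 j)).trans (le_of_eq ?_)
      ring
    have hsum : ∑ m : Fin 3, ∑ j, Z j * ((∑ i, gq (gm m L) y i * (y i - X j i)) /
        nr (y - X j) ^ 3 - Tq (y - X j) (gv (gm m L) y) (gv (gm m L) y) +
        2 * Tq (y - X j) (gv (gm m L) y) (gv (gN X m (d / 8)) y)) ≤
        ∑ _m : Fin 3, ∑ j, 138 * K ^ 2 / L * (Z j / nr (y - X j)) :=
      Finset.sum_le_sum fun m _ => Finset.sum_le_sum fun j _ => hj m j
    refine hsum.trans ?_
    have e : ∑ _m : Fin 3, ∑ j, 138 * K ^ 2 / L * (Z j / nr (y - X j)) =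
        414 * K ^ 2 / L * pot X Z y := by
      unfold pot
      rw [← Finset.mul_sum]
      simp
      ring
    have h01 : ∀ m, UU d X Z y (em m) (gv (gN X m (d / 8)) y) = 0 := by
      intro m
      rw [h0, uu_zero]
    rw [e, Finset.sum_congr rfl fun m _ => h01 m, Finset.sum_const_zero]
    have t1 : 0 ≤ (2 * (46080 * K1 / d ^ 3) + 414 * K ^ 2) * z := by positivity
    have t2 : (2 * (46080 * K1 / d ^ 3) + 414 * K ^ 2) / L * pot X Z y =
        414 * K ^ 2 / L * pot X Z y + 2 * (46080 * K1 / d ^ 3) / L * pot X Z y := by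
      ring
    have t3 : 0 ≤ 2 * (46080 * K1 / d ^ 3) / L * pot X Z y := by positivity
    linarith

/-- all electrons and the nuclei, by UNS -/
theorem NE0S (h1 : ST_FLD) (h2 : ST_CUT) (h3 : ST_UNS) : ∀ d : ℝ, 0 < d → d ≤ 1 →
    ∃ C : ℝ, 0 < C ∧
    ∀ (z L : ℝ) (n M : ℕ) (X : Fin M → R3) (Z : Fin M → ℝ) (x : Cf n), Dat d z n X Z → 1 ≤ L →
    (∀ j, 2 * nr (X j) + 4 ≤ L) → Dist X x → 0 ≤ Dn (d / 8) X Z x → 0 ≤ Rem (d / 8) x →
    ∑ k, ∑ m, ∑ j, Z j * ((∑ i, gq (gm m L) (x k) i * (x k i - X j i)) / nr (x k - X j) ^ 3 -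
      Tq (x k - X j) (gv (gm m L) (x k)) (gv (gm m L) (x k)) +
      2 * Tq (x k - X j) (gv (gm m L) (x k)) (gv (gN X m (d / 8)) (x k))) ≤
      C * Loc d z X Z x + C * (z * n) + C / L * ∑ k, pot X Z (x k) := by
  intro d hd hd1
  obtain ⟨C1, hC1, HN⟩ := NE0 h1 h2 d hd hd1
  obtain ⟨K1, hK1, HF⟩ := h1
  obtain ⟨C2, hC2, HU⟩ := h3 d hd hd1
  refine ⟨C1 + 6 * (C2 * K1 ^ 2), by positivity, ?_⟩
  intro z L n M X Z x hDat hL hXL hDist hDn hRem
  have hS := hDat.sep
  have hz : 0 ≤ z := zero_le_one.trans hDat.z1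
  have hL0 : 0 < L := by linarith
  have F := fun m => HF M X d (d / 8) (d / 8) m hd hS (by positivity) le_rfl (by linarith)
  have hpk : ∀ k, 0 ≤ pot X Z (x k) := by
    intro k
    unfold pot
    exact Finset.sum_nonneg fun j _ => div_nonneg (hDat.nuc.1 j) (VIR_nr0 _)
  have s1 := Finset.sum_le_sum fun k (_ : k ∈ (Finset.univ : Finset (Fin n))) =>
    HN z L n M X Z (x k) hDat hL hXL (hDist.2 k)
  refine s1.trans ?_
  rw [Finset.sum_add_distrib, Finset.sum_add_distrib, Finset.sum_const, Finset.card_univ,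
    Fintype.card_fin, nsmul_eq_mul, ← Finset.mul_sum, ← Finset.mul_sum, Finset.sum_comm]
  have hU : ∀ m : Fin 3, ∑ k, UU d X Z (x k) (em m) (gv (gN X m (d / 8)) (x k)) ≤
      C2 * K1 ^ 2 * Loc d z X Z x := by
    intro m
    have t := HU z K1 n M X Z x (em m) (fun k => gv (gN X m (d / 8)) (x k)) hDat hDist hDn hRem
      hK1 (em_le m) (fun k l => (F m).1.d1 l (x k)) (fun k hk => by
        funext l
        exact (F m).2.2.2.1 (x k) (fun j => by
          have := hk j
          linarith) l)
    refine le_trans (le_of_eq ?_) ((le_abs_self _).trans t)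
    unfold UU
    rw [Finset.sum_comm]
  have s2 : ∑ m : Fin 3, ∑ k, UU d X Z (x k) (em m) (gv (gN X m (d / 8)) (x k)) ≤
      3 * (C2 * K1 ^ 2 * Loc d z X Z x) := by
    refine (Finset.sum_le_sum fun m _ => hU m).trans (le_of_eq ?_)
    simp
  have hLoc : 0 ≤ Loc d z X Z x := by
    unfold Loc
    have a1 : 0 ≤ z * ∑ k, near1 X d (x k) := by
      refine mul_nonneg hz (Finset.sum_nonneg fun k _ => ?_)
      unfold near1
      refine Finset.sum_nonneg fun j _ => ?_
      have := VIR_nr0 (x k - X j)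
      split_ifs <;> positivity
    positivity
  have hp : 0 ≤ ∑ k, pot X Z (x k) := Finset.sum_nonneg fun k _ => hpk k
  have a1 : 0 ≤ C1 * Loc d z X Z x := by positivity
  have a2 : 0 ≤ 6 * (C2 * K1 ^ 2) * (z * n) := by positivity
  have a3 : 0 ≤ 6 * (C2 * K1 ^ 2) / L * ∑ k, pot X Z (x k) := by positivity
  have e1 : (C1 + 6 * (C2 * K1 ^ 2)) / L * ∑ k, pot X Z (x k) =
      C1 / L * ∑ k, pot X Z (x k) + 6 * (C2 * K1 ^ 2) / L * ∑ k, pot X Z (x k) := by ring
  rw [e1]
  nlinarith

end Pool.Agent.Helper3.HW
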